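import Pool.Agent.PV3.Stmts

/-!
PV3, module BDL: one nonempty bounded polyhedron is enough.
-/

set_option autoImplicit false

open MeasureTheory Metric Set Filter Topology Pointwise

namespace PV3.H4

open PV PV3

/-- The sum of the positive parts of the inner products. -/
noncomputable def pp {n : ℕ} (U : Finset (E n)) (v : E n) : ℝ := ∑ w ∈ U, max (inner ℝ v w) 0

lemma pp_cont {n : ℕ} (U : Finset (E n)) : Continuous (pp U) := by
  unfold pp
  fun_prop

lemma pp_smul {n : ℕ} (U : Finset (E n)) (r : ℝ) (hr : 0 ≤ r) (v : E n) :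
    pp U (r • v) = r * pp U v := by
  unfold pp
  rw [Finset.mul_sum]
  refine Finset.sum_congr rfl fun w _ => ?_
  rw [real_inner_smul_left]
  rcases le_total 0 (inner ℝ v w) with h | h
  · rw [max_eq_left h, max_eq_left (mul_nonneg hr h)]
  · rw [max_eq_right h, max_eq_right (mul_nonpos_of_nonneg_of_nonpos hr h), mul_zero]

theorem bdl : BDLStmt := by
  intro n U c hne hbd c'
  obtain ⟨x0, hx0⟩ := hne
  have hpos : ∀ v ∈ sphere (0 : E n) 1, 0 < pp U v := by
    intro v hv
    have hv1 : ‖v‖ = 1 := by simpa using hv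
    by_contra hc
    have h0 : pp U v ≤ 0 := not_lt.mp hc
    have hall : ∀ w ∈ U, inner ℝ v w ≤ 0 := by
      intro w hw
      have h1 : max (inner ℝ v w) 0 ≤ pp U v :=
        Finset.single_le_sum (f := fun w => max (inner ℝ v w) 0)
          (fun i _ => le_max_right _ _) hw
      exact (le_max_left _ _).trans (h1.trans h0)
    obtain ⟨R, hR⟩ := hbd.subset_closedBall 0
    have hmem : ∀ t : ℝ, 0 ≤ t → x0 + t • v ∈ Pl U c := by
      intro t ht w hw
      have h1 := hx0 w hw
      have h2 := hall w hw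
      show inner ℝ (x0 + t • v) w ≤ c w
      rw [inner_add_left, real_inner_smul_left]
      nlinarith [mul_nonneg ht (neg_nonneg.mpr h2)]
    have hb : ∀ t : ℝ, 0 ≤ t → t ≤ R + ‖x0‖ := by
      intro t ht
      have h1 := hR (hmem t ht)
      rw [mem_closedBall_zero_iff] at h1
      have h2 : ‖t • v‖ ≤ ‖x0 + t • v‖ + ‖x0‖ := by
        have := norm_sub_le (x0 + t • v) x0
        simpa using this
      rw [norm_smul, hv1, mul_one, Real.norm_of_nonneg ht] at h2
      linarith
    have h3 := hb (|R + ‖x0‖| + 1) (by positivity)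
    have h4 := le_abs_self (R + ‖x0‖)
    linarith
  by_cases hs : (sphere (0 : E n) 1).Nonempty
  · obtain ⟨v0, hv0, hmin⟩ := (isCompact_sphere (0 : E n) 1).exists_isMinOn hs
      (pp_cont U).continuousOn
    have hd := hpos v0 hv0
    refine (isBounded_closedBall (x := (0 : E n))
      (r := (∑ w ∈ U, max (c' w) 0) / pp U v0)).subset ?_
    intro x hx
    rw [mem_closedBall_zero_iff, le_div_iff₀ hd]
    by_cases hx0 : x = 0
    · subst hx0
      rw [norm_zero, zero_mul]
      exact Finset.sum_nonneg fun w _ => le_max_right _ _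
    · have hn : 0 < ‖x‖ := norm_pos_iff.mpr hx0
      have h1 : pp U x = ‖x‖ * pp U (‖x‖⁻¹ • x) := by
        rw [← pp_smul U _ hn.le, smul_smul, mul_inv_cancel₀ hn.ne', one_smul]
      have h2 : pp U v0 ≤ pp U (‖x‖⁻¹ • x) := by
        apply hmin
        rw [mem_sphere_zero_iff_norm, norm_smul, norm_inv, norm_norm, inv_mul_cancel₀ hn.ne']
      have h3 : pp U x ≤ ∑ w ∈ U, max (c' w) 0 := by
        unfold pp
        exact Finset.sum_le_sum fun w hw => max_le_max (hx w hw) le_rfl
      calc ‖x‖ * pp U v0 ≤ ‖x‖ * pp U (‖x‖⁻¹ • x) := mul_le_mul_of_nonneg_left h2 hn.le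
        _ = pp U x := h1.symm
        _ ≤ _ := h3
  · refine (isBounded_closedBall (x := (0 : E n)) (r := 0)).subset ?_
    intro x _
    rw [mem_closedBall_zero_iff]
    by_contra hx
    have hn : 0 < ‖x‖ := not_le.mp hx
    apply hs
    refine ⟨‖x‖⁻¹ • x, ?_⟩
    rw [mem_sphere_zero_iff_norm, norm_smul, norm_inv, norm_norm, inv_mul_cancel₀ hn.ne']

end PV3.H4
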