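import Pool.Agent.PV3.Stmts

/-!
Squad PV3, module FIN: the final assembly.
-/

set_option autoImplicit false

open MeasureTheory Metric Set Filter Topology Pointwise

namespace PV3.H4

open PV PV3

section basics

variable {n : ℕ}

lemma le_hs {K : Set (E n)} (hK : IsCompact K) {x : E n} (hx : x ∈ K) (w : E n) :
    inner ℝ x w ≤ hs K w := by
  refine le_csSup ?_ ⟨x, hx, rfl⟩
  exact (hK.image (by fun_prop)).bddAbove

lemma hs_le {K : Set (E n)} (hne : K.Nonempty) {w : E n} {a : ℝ}
    (h : ∀ x ∈ K, inner ℝ x w ≤ a) : hs K w ≤ a := by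
  refine csSup_le (hne.image _) ?_
  rintro _ ⟨x, hx, rfl⟩
  exact h x hx

lemma fa_nonneg (U : Finset (E n)) (c : E n → ℝ) (w : E n) : 0 ≤ fa U c w := ENNReal.toReal_nonneg

lemma full_nonempty {K : Set (E n)} (h : Full K) : K.Nonempty := by
  obtain ⟨x, hx⟩ := h
  exact ⟨x, interior_subset hx⟩

/-- an interior point satisfies the inequalities strictly -/
lemma lt_hs {K : Set (E n)} (hK : IsCompact K) {x : E n} (hx : x ∈ interior K) {w : E n}
    (hw : ‖w‖ = 1) : inner ℝ x w < hs K w := by
  obtain ⟨e, he, hb⟩ := Metric.isOpen_iff.1 isOpen_interior x hx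
  have h1 : x + (e / 2) • w ∈ K := by
    refine interior_subset (hb ?_)
    rw [mem_ball, dist_eq_norm, add_sub_cancel_left, norm_smul, hw, mul_one, Real.norm_eq_abs,
      abs_of_pos (by linarith)]
    linarith
  have h2 := le_hs hK h1 w
  rw [inner_add_left, real_inner_smul_left, real_inner_self_eq_norm_sq, hw] at h2
  nlinarith

end basics

/-- the symmetrised finite set -/
noncomputable def sym {n : ℕ} (U : Finset (E n)) : Finset (E n) := by
  classical
  exact U ∪ U.image (fun w => -w)

lemma mem_sym {n : ℕ} {U : Finset (E n)} {w : E n} : w ∈ sym U ↔ w ∈ U ∨ -w ∈ U := by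
  classical
  unfold sym
  rw [Finset.mem_union, Finset.mem_image]
  constructor
  · rintro (h | ⟨a, ha, rfl⟩)
    · exact Or.inl h
    · right
      rwa [neg_neg]
  · rintro (h | h)
    · exact Or.inl h
    · exact Or.inr ⟨-w, h, neg_neg w⟩

/-- the numerical core: the algebra of the last step -/
lemma algebra_core {n : ℕ} (V : Finset (E n)) (hV : ∀ w ∈ V, -w ∈ V) (a b h H : E n → ℝ)
    (hb : ∀ w, 0 ≤ b w)
    (h1 : ∀ w ∈ V, a w + a (-w) = b w + b (-w))
    (h2 : ∀ w ∈ V, a w * h w - a (-w) * h (-w) = b w * H w - b (-w) * H (-w))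
    (h3 : ∀ w ∈ V, a w = 0 ∨ a (-w) = 0)
    (ra : ∑ w ∈ V, a w • w = 0) (rb : ∑ w ∈ V, b w • w = 0) :
    ∃ e : E n → ℝ, (∀ w, 0 ≤ e w) ∧ (∀ w ∈ V, b w = a w - e (-w) + e w) ∧
      ∑ w ∈ V, e w • w = 0 ∧
      ∑ w ∈ V, b w * H w - ∑ w ∈ V, a w * h w = 2 * ∑ w ∈ V, e w * H w ∧
      ∑ w ∈ V, b w * h w - ∑ w ∈ V, a w * h w = ∑ w ∈ V, e w * (h w - h (-w)) := by
  classical
  -- reindexing by the reflection
  have hre : ∀ f : E n → ℝ, ∑ w ∈ V, f (-w) = ∑ w ∈ V, f w := by
    intro f
    refine Finset.sum_bij' (fun w _ => -w) (fun w _ => -w) (fun w hw => hV w hw)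
      (fun w hw => hV w hw) (fun w _ => neg_neg w) (fun w _ => neg_neg w) (fun w _ => rfl)
  have hreE : ∀ f : E n → E n, ∑ w ∈ V, f (-w) = ∑ w ∈ V, f w := by
    intro f
    refine Finset.sum_bij' (fun w _ => -w) (fun w _ => -w) (fun w hw => hV w hw)
      (fun w hw => hV w hw) (fun w _ => neg_neg w) (fun w _ => neg_neg w) (fun w _ => rfl)
  let e : E n → ℝ := fun w => if a w = 0 then b w else 0
  have he0 : ∀ w, 0 ≤ e w := by
    intro w
    show 0 ≤ if a w = 0 then b w else 0
    split_ifs
    · exact hb w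
    · exact le_rfl
  have hbe : ∀ w ∈ V, b w = a w - e (-w) + e w := by
    intro w hw
    show b w = a w - (if a (-w) = 0 then b (-w) else 0) + if a w = 0 then b w else 0
    have k1 := h1 w hw
    by_cases hw0 : a w = 0
    · rw [if_pos hw0, hw0]
      by_cases hw1 : a (-w) = 0
      · rw [if_pos hw1]
        rw [hw0, hw1] at k1
        have := hb w
        have := hb (-w)
        linarith
      · rw [if_neg hw1]
        ring
    · have hw1 := (h3 w hw).resolve_left hw0
      rw [if_pos hw1, if_neg hw0]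
      rw [hw1] at k1
      linarith
  have hsum : ∑ w ∈ V, e w • w = 0 := by
    have k1 : ∑ w ∈ V, b w • w = ∑ w ∈ V, a w • w + ∑ w ∈ V, e w • w - ∑ w ∈ V, e (-w) • w := by
      rw [← Finset.sum_add_distrib, ← Finset.sum_sub_distrib]
      refine Finset.sum_congr rfl fun w hw => ?_
      rw [hbe w hw, add_smul, sub_smul]
      abel
    have k2 : ∑ w ∈ V, e (-w) • w = - ∑ w ∈ V, e w • w := by
      rw [← hreE (fun w => e w • w), ← Finset.sum_neg_distrib]
      refine Finset.sum_congr rfl fun w _ => ?_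
      rw [smul_neg, neg_neg]
    rw [ra, rb, k2, zero_add, sub_neg_eq_add, ← two_smul ℝ] at k1
    rcases smul_eq_zero.1 k1.symm with k | k
    · norm_num at k
    · exact k
  refine ⟨e, he0, hbe, hsum, ?_, ?_⟩
  · -- sum over all w of (b w H w + b(-w) H(-w) - a w h w - a (-w) h (-w)) = 2 (...)
    have k1 : ∀ w ∈ V, b w * H w + b (-w) * H (-w) - (a w * h w + a (-w) * h (-w)) =
        2 * (e w * H w) + 2 * (e (-w) * H (-w)) := by
      intro w hw
      have q1 := h1 w hw
      have q2 := h2 w hw
      have e1 := hbe w hw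
      have e2 := hbe (-w) (hV w hw)
      rw [neg_neg] at e2
      by_cases hw0 : a w = 0
      · have z2 : e (-w) = 0 := by
          show (if a (-w) = 0 then b (-w) else 0) = 0
          by_cases hw1 : a (-w) = 0
          · rw [if_pos hw1]
            rw [hw0, hw1] at q1
            have := hb w
            have := hb (-w)
            linarith
          · rw [if_neg hw1]
        have z1 : e w = b w := if_pos hw0
        rw [hw0] at q2
        rw [hw0, z1, z2]
        linarith
      · have hw1 := (h3 w hw).resolve_left hw0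
        have z1 : e w = 0 := if_neg hw0
        have z2 : e (-w) = b (-w) := if_pos hw1
        rw [hw1] at q2
        rw [hw1, z1, z2]
        linarith
    have k2 := Finset.sum_congr rfl k1
    rw [Finset.sum_sub_distrib, Finset.sum_add_distrib, Finset.sum_add_distrib,
      Finset.sum_add_distrib, hre (fun w => b w * H w), hre (fun w => a w * h w),
      ← Finset.mul_sum, ← Finset.mul_sum, hre (fun w => e w * H w)] at k2
    linarith
  · have k1 : ∑ w ∈ V, b w * h w = ∑ w ∈ V, a w * h w + ∑ w ∈ V, e w * h w -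
        ∑ w ∈ V, e (-w) * h w := by
      rw [← Finset.sum_add_distrib, ← Finset.sum_sub_distrib]
      refine Finset.sum_congr rfl fun w hw => ?_
      rw [hbe w hw]
      ring
    have k2 : ∑ w ∈ V, e (-w) * h w = ∑ w ∈ V, e w * h (-w) := by
      rw [← hre (fun w => e w * h (-w))]
      refine Finset.sum_congr rfl fun w _ => ?_
      rw [neg_neg]
    rw [k1, k2]
    have k3 : ∑ w ∈ V, e w * (h w - h (-w)) = ∑ w ∈ V, e w * h w - ∑ w ∈ V, e w * h (-w) := by
      rw [← Finset.sum_sub_distrib]
      refine Finset.sum_congr rfl fun w _ => ?_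
      ring
    rw [k3]
    ring

/-- the case of a body given by unit normals -/
lemma core (hAN : ANStmt) (hBDL : BDLStmt) (hREL : RELStmt) (hFCT : FCTStmt) (hINR : INRStmt)
    (hDDD : DDDStmt) (hASY : ASYStmt) (hDAT : DATStmt) (hTRS : TRSStmt)
    (V : Finset (E 3)) (hVu : Un V) (hVs : ∀ w ∈ V, -w ∈ V) (K L : Set (E 3)) (hK : Cb K)
    (hL : Cb L) (hKP : K = Pl V (hs K)) (hLP : L = Pl V (hs L)) (hSD : SameData K L)
    (hface : ∀ w : E 3, w ≠ 0 → Module.finrank ℝ (vectorSpan ℝ (face K w)) < 2 ∨
      Module.finrank ℝ (vectorSpan ℝ (face K (-w))) < 2) : K = L := by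
  classical
  have hKne := full_nonempty hK.full
  have hLne := full_nonempty hL.full
  have hBd : Bd V := hBDL 3 V (hs K) (by rw [← hKP]; exact hKne)
    (by rw [← hKP]; exact hK.cpt.isBounded)
  have hCK : Cb (Pl V (hs K)) := by rw [← hKP]; exact hK
  have hCL : Cb (Pl V (hs L)) := by rw [← hLP]; exact hL
  have hSD' : SameData (Pl V (hs K)) (Pl V (hs L)) := by rw [← hKP, ← hLP]; exact hSD
  have hD := hDAT 3 (by norm_num) V (hs K) (hs L) hVu hVs hCK hCL hSD'
  -- no parallel facets
  have hzero : ∀ w ∈ V, Module.finrank ℝ (vectorSpan ℝ (face K w)) < 2 →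
      fa V (hs K) w = 0 := by
    intro w hw hfr
    refine (hAN 3 w (hVu w hw)).2 _ ?_
    have hsub : Fc V (hs K) w ⊆ face K w := by
      rintro x ⟨hx, hxw⟩
      rw [← hKP] at hx
      exact ⟨hx, fun y hy => by rw [hxw]; exact le_hs hK.cpt hy w⟩
    have h1 := Submodule.finrank_mono (vectorSpan_mono ℝ hsub)
    omega
  have h3 : ∀ w ∈ V, fa V (hs K) w = 0 ∨ fa V (hs K) (-w) = 0 := by
    intro w hw
    have hw0 : w ≠ 0 := by
      intro h
      have := hVu w hw
      rw [h, norm_zero] at this
      norm_num at this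
    rcases hface w hw0 with h | h
    · exact Or.inl (hzero w hw h)
    · exact Or.inr (hzero (-w) (hVs w hw) h)
  obtain ⟨ra, va⟩ := hREL 3 V (hs K) hVu hBd hCK.full
  obtain ⟨rb, vb⟩ := hREL 3 V (hs L) hVu hBd hCL.full
  obtain ⟨e, he0, hbe, hes, hvol, hT⟩ := algebra_core V hVs (fa V (hs K)) (fa V (hs L)) (hs K)
    (hs L) (fa_nonneg V _) (fun w hw => (hD w hw).1) (fun w hw => (hD w hw).2) h3 ra rb
  rw [va, vb] at hvol
  rw [va] at hT
  -- the asymmetry
  obtain ⟨g, hg⟩ := hASY 3 K hK
  have hinner : ∀ q : E 3, ∑ w ∈ V, e w * inner ℝ q w = 0 := by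
    intro q
    have : inner ℝ q (∑ w ∈ V, e w • w) = ∑ w ∈ V, e w * inner ℝ q w := by
      rw [inner_sum]
      exact Finset.sum_congr rfl fun w _ => by rw [real_inner_smul_right]
    rw [← this, hes, inner_zero_right]
  have hasy : ∑ w ∈ V, e w * (hs K w - hs K (-w)) ≤ 2 / 3 * ∑ w ∈ V, e w * hs K w := by
    have h1 : ∑ w ∈ V, e w * hs K w ≤ 3 * ∑ w ∈ V, e w * hs K (-w) := by
      have h2 : ∑ w ∈ V, e w * hs K w ≤
          ∑ w ∈ V, (3 * (e w * hs K (-w)) + e w * inner ℝ (-g) w) := by
        refine Finset.sum_le_sum fun w _ => ?_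
        have := hg (-w)
        rw [neg_neg, inner_neg_right] at this
        rw [inner_neg_left]
        have h3 := mul_le_mul_of_nonneg_left this (he0 w)
        push_cast at h3
        linarith
      rw [Finset.sum_add_distrib, ← Finset.mul_sum, hinner, add_zero] at h2
      exact h2
    have h2 : ∑ w ∈ V, e w * (hs K w - hs K (-w)) =
        ∑ w ∈ V, e w * hs K w - ∑ w ∈ V, e w * hs K (-w) := by
      rw [← Finset.sum_sub_distrib]
      exact Finset.sum_congr rfl fun w _ => by ring
    rw [h2]
    linarith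
  -- translate K
  obtain ⟨p, hp⟩ := hK.full
  let d : E 3 → ℝ := fun w => hs K w - inner ℝ p w
  have hd0 : ∀ w ∈ V, 0 < d w := fun w hw => by
    have := lt_hs hK.cpt hp (hVu w hw)
    show 0 < hs K w - inner ℝ p w
    linarith
  obtain ⟨r, hr0, hrne, hrv⟩ := hINR 3 (by norm_num) V (hs L) d hVu hBd hCL.full hd0
  obtain ⟨x₀, hx₀⟩ := hrne
  by_cases hr1 : 1 ≤ r
  · refine hTRS 3 (by norm_num) K L (x₀ - p) hK hL hSD fun x hx => ?_
    rw [hLP]
    intro w hw
    have h1 := hx₀ w hw
    have h2 := le_hs hK.cpt hx w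
    have h4 := hd0 w hw
    have h5 : hs L w - r * d w ≤ hs L w - d w := by nlinarith
    have h6 : d w = hs K w - inner ℝ p w := rfl
    rw [inner_add_left, inner_sub_left]
    simp only at h1
    linarith
  push Not at hr1
  -- the translated polytope
  have htr : Pl V d = (fun x => x - p) '' K := by
    ext x
    constructor
    · intro hx
      refine ⟨x + p, ?_, by simp⟩
      rw [hKP]
      intro w hw
      have := hx w hw
      rw [inner_add_left]
      have h6 : d w = hs K w - inner ℝ p w := rfl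
      linarith
    · rintro ⟨y, hy, rfl⟩ w hw
      have := le_hs hK.cpt hy w
      show inner ℝ (y - p) w ≤ hs K w - inner ℝ p w
      rw [inner_sub_left]
      linarith
  have hvd : vl (Pl V d) = vl K := by
    rw [htr]
    unfold vl
    have h1 : (fun x : E 3 => x - p) '' K = (fun x : E 3 => x + (-p)) '' K := by
      refine image_congr fun x _ => ?_
      rw [sub_eq_add_neg]
    rw [h1, image_add_right, neg_neg, measure_preimage_add_right]
  have hsd : ∀ w ∈ V, hs (Pl V d) w = d w := by
    intro w hw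
    rw [htr]
    unfold hs
    rw [image_image]
    have h1 : (fun x : E 3 => inner ℝ (x - p) w) '' K =
        (fun y : ℝ => y - inner ℝ p w) '' ((fun x : E 3 => inner ℝ x w) '' K) := by
      rw [image_image]
      refine image_congr fun x _ => ?_
      rw [inner_sub_left]
    rw [h1]
    have hne : ((fun x : E 3 => inner ℝ x w) '' K).Nonempty := hKne.image _
    have hbd : BddAbove ((fun x : E 3 => inner ℝ x w) '' K) :=
      (hK.cpt.image (by fun_prop)).bddAbove
    have h7 := (OrderIso.subRight (inner ℝ p w : ℝ)).map_csSup' hne hbd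
    have h8 : (OrderIso.subRight (inner ℝ p w : ℝ)) (sSup ((fun x : E 3 => inner ℝ x w) '' K)) =
        d w := rfl
    rw [← h8, h7]
    rfl
  have hfd : Full (Pl V d) := by
    refine ⟨0, ?_⟩
    rw [htr]
    have h1 : (fun x : E 3 => x - p) '' K = (fun x : E 3 => x + p) ⁻¹' K := by
      ext x
      constructor
      · rintro ⟨y, hy, rfl⟩
        simpa using hy
      · intro hx
        exact ⟨x + p, hx, by simp⟩
    rw [h1]
    refine preimage_interior_subset_interior_preimage (by fun_prop) ?_
    simpa using hp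
  have hTd : ∑ w ∈ V, fa V (hs L) w * d w = ∑ w ∈ V, fa V (hs L) w * hs K w := by
    have h1 : ∑ w ∈ V, fa V (hs L) w * inner ℝ p w = 0 := by
      have : inner ℝ p (∑ w ∈ V, fa V (hs L) w • w) =
          ∑ w ∈ V, fa V (hs L) w * inner ℝ p w := by
        rw [inner_sum]
        exact Finset.sum_congr rfl fun w _ => by rw [real_inner_smul_right]
      rw [← this, rb, inner_zero_right]
    have h2 : ∑ w ∈ V, fa V (hs L) w * d w =
        ∑ w ∈ V, fa V (hs L) w * hs K w - ∑ w ∈ V, fa V (hs L) w * inner ℝ p w := by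
      rw [← Finset.sum_sub_distrib]
      refine Finset.sum_congr rfl fun w _ => ?_
      show fa V (hs L) w * (hs K w - inner ℝ p w) = _
      ring
    rw [h2, h1, sub_zero]
  have hvL : vl (Pl V (hs L)) = vl L := by rw [← hLP]
  have hvK : vl (Pl V (hs K)) = vl K := by rw [← hKP]
  rw [hvL, hvK] at hvol
  rw [hvK] at hT
  by_cases hlt : vl K < vl L
  · exfalso
    have h1 := hDDD V (hs L) d r hVu hBd hCL.full hfd hsd hd0 hr0 hr1 hrv
      (by rw [hvd, hvL]; exact hlt)
    rw [hvd, hvL, hTd] at h1
    have h2 : r * ∑ w ∈ V, e w * hs K w ≤ ∑ w ∈ V, e w * hs L w := by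
      have h3 : ∑ w ∈ V, (e w * inner ℝ (x₀ - r • p) w + r * (e w * hs K w)) ≤
          ∑ w ∈ V, e w * hs L w := by
        refine Finset.sum_le_sum fun w hw => ?_
        have h4 := hx₀ w hw
        simp only at h4
        have h6 : d w = hs K w - inner ℝ p w := rfl
        rw [h6] at h4
        rw [inner_sub_left, real_inner_smul_left]
        have h5 := mul_le_mul_of_nonneg_left h4 (he0 w)
        linarith
      rw [Finset.sum_add_distrib, hinner, zero_add, ← Finset.mul_sum] at h3
      exact h3
    have h3 := mul_le_mul_of_nonneg_left hasy hr0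
    push_cast at hvol hT
    nlinarith
  · push Not at hlt
    -- all the e w vanish
    obtain ⟨y, hy⟩ := hL.full
    have h1 : ∑ w ∈ V, e w * (hs L w - inner ℝ y w) = ∑ w ∈ V, e w * hs L w := by
      have h2 : ∑ w ∈ V, e w * (hs L w - inner ℝ y w) =
          ∑ w ∈ V, e w * hs L w - ∑ w ∈ V, e w * inner ℝ y w := by
        rw [← Finset.sum_sub_distrib]
        exact Finset.sum_congr rfl fun w _ => by ring
      rw [h2, hinner, sub_zero]
    have h2 : ∑ w ∈ V, e w * (hs L w - inner ℝ y w) ≤ 0 := by
      rw [h1]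
      push_cast at hvol
      linarith
    have h4 : ∀ w ∈ V, 0 ≤ e w * (hs L w - inner ℝ y w) := fun w hw =>
      mul_nonneg (he0 w) (by have := lt_hs hL.cpt hy (hVu w hw); linarith)
    have h5 : ∀ w ∈ V, e w = 0 := by
      intro w hw
      have h6 := (Finset.sum_eq_zero_iff_of_nonneg h4).1
        (le_antisymm h2 (Finset.sum_nonneg h4)) w hw
      rcases mul_eq_zero.1 h6 with h | h
      · exact h
      · have := lt_hs hL.cpt hy (hVu w hw)
        linarith
    have hab : ∀ w ∈ V, fa V (hs L) w = fa V (hs K) w := by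
      intro w hw
      rw [hbe w hw, h5 w hw, h5 (-w) (hVs w hw)]
      ring
    -- L is contained in K
    have hsub : ∀ x ∈ L, x ∈ K := by
      intro x hx
      by_contra hxK
      rw [hKP] at hxK
      obtain ⟨w, hw, hpos, hxw⟩ := hFCT 3 V (hs K) hVu hBd hCK.full x hxK
      have k1 := (hD w hw).2
      have k2 := (h3 w hw).resolve_left hpos.ne'
      rw [hab w hw, hab (-w) (hVs w hw), k2] at k1
      have k3 : hs K w = hs L w := by
        have : fa V (hs K) w * (hs K w - hs L w) = 0 := by linarith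
        rcases mul_eq_zero.1 this with h | h
        · exact absurd h hpos.ne'
        · linarith
      have k4 := le_hs hL.cpt hx w
      linarith
    have hSDs : SameData L K := fun u hu => ⟨(hSD u hu).1.symm, (hSD u hu).2.symm⟩
    exact (hTRS 3 (by norm_num) L K 0 hL hK hSDs (fun x hx => by
      rw [zero_add]; exact hsub x hx)).symm

/-- the final assembly -/
theorem fin (hAN : ANStmt) (hBDL : BDLStmt) (hREL : RELStmt) (hFCT : FCTStmt) (hINR : INRStmt)
    (hDDD : DDDStmt) (hASY : ASYStmt) (hDAT : DATStmt) (hTRS : TRSStmt) (hSPO : SPOStmt) :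
    FINStmt := by
  classical
  intro ι hι v c K L hKv hK hface hL hSD
  have hKne := full_nonempty hK.full
  have hfin : (Set.range fun i => ‖v i‖⁻¹ • v i).Finite := Set.finite_range _
  let U : Finset (E 3) := hfin.toFinset.filter fun w => ‖w‖ = 1
  have hUu : Un U := fun w hw => (Finset.mem_filter.1 hw).2
  have hKU : K = Pl U (hs K) := by
    ext x
    constructor
    · intro hx w _
      exact le_hs hK.cpt hx w
    · intro hx
      rw [hKv]
      intro i
      by_cases hi : v i = 0
      · obtain ⟨y, hy⟩ := hKne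
        rw [hKv] at hy
        have := hy i
        rw [hi, inner_zero_right] at this ⊢
        exact this
      · have hn : 0 < ‖v i‖ := norm_pos_iff.2 hi
        have hw : ‖v i‖⁻¹ • v i ∈ U := by
          refine Finset.mem_filter.2 ⟨hfin.mem_toFinset.2 ⟨i, rfl⟩, ?_⟩
          rw [norm_smul, norm_inv, norm_norm, inv_mul_cancel₀ hn.ne']
        have h1 := hx _ hw
        have h2 : hs K (‖v i‖⁻¹ • v i) ≤ ‖v i‖⁻¹ * c i := by
          refine hs_le hKne fun y hy => ?_
          rw [hKv] at hy
          rw [real_inner_smul_right]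
          exact mul_le_mul_of_nonneg_left (hy i) (inv_nonneg.2 hn.le)
        rw [real_inner_smul_right] at h1
        exact le_of_mul_le_mul_left (h1.trans h2) (inv_pos.2 hn)
  have hVu : Un (sym U) := by
    intro w hw
    rcases mem_sym.1 hw with h | h
    · exact hUu w h
    · rw [← norm_neg]
      exact hUu _ h
  have hVs : ∀ w ∈ sym U, -w ∈ sym U := by
    intro w hw
    rcases mem_sym.1 hw with h | h
    · exact mem_sym.2 (Or.inr (by rwa [neg_neg]))
    · exact mem_sym.2 (Or.inl h)
  have hKV : K = Pl (sym U) (hs K) := by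
    ext x
    constructor
    · intro hx w _
      exact le_hs hK.cpt hx w
    · intro hx
      rw [hKU]
      intro w hw
      exact hx w (mem_sym.2 (Or.inl hw))
  have hLV : L = Pl (sym U) (hs L) := by
    have h1 := hSPO 3 (by norm_num) U (hs K) L hUu (by rw [← hKU]; exact hK) hL
      (by rw [← hKU]; exact hSD)
    have h2 : Pl (sym U) (hs L) =
        {x | ∀ w : E 3, (w ∈ U ∨ -w ∈ U) → inner ℝ x w ≤ hs L w} := by
      ext x
      constructor
      · intro hx w hw
        exact hx w (mem_sym.2 hw)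
      · intro hx w hw
        exact hx w (mem_sym.1 hw)
    rw [h2]
    exact h1
  exact core hAN hBDL hREL hFCT hINR hDDD hASY hDAT hTRS (sym U) hVu hVs K L hK hL hKV hLV hSD
    hface

end PV3.H4
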