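import Pool.Agent.Helper10_PV3.Out
import Pool.Agent.Helper11_PV3.An
import Pool.Agent.Helper19_PV3.Trs
import Pool.Agent.Helper21_PV3.Inn
import Pool.Agent.Helper24_PV3.Dat
import Pool.Agent.Helper27_PV3.Der
import Pool.Agent.Helper27_PV3.Lim
import Pool.Agent.Helper33_PV3.Ddd
import Pool.Agent.Helper33_PV3.Pol
import Pool.Agent.Helper40_PV3.AR
import Pool.Agent.Helper48_PV3.Asy
import Pool.Agent.Helper48_PV3.Vpo
import Pool.Agent.Helper51_PV3.Gen
import Pool.Agent.Helper51_PV3.Reg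
import Pool.Agent.Helper59_PV3.Sel
import Pool.Agent.Helper5_PV3.Spo
import Pool.Agent.Helper60_PV3.Fac
import Pool.Agent.Helper60_PV3.Rel
import Pool.Agent.Helper64_PV3.Bm
import Pool.Agent.Helper65_PV3.Inr
import Pool.Agent.Helper65_PV3.Sek
import Pool.Agent.Helper87_PV3.Coo
import Pool.Agent.Helper90_PV3.Fct
import Pool.Agent.Helper4_PV3.Bdl
import Pool.Agent.Helper4_PV3.Fin

/-!
Squad PV3 (MP_e25c73_gt): assembly of all modules.
-/

set_option autoImplicit false

namespace PV3.H4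

open PV PV3

theorem all : FINStmt :=
  fin H11.an bdl (H60.rel (H27.der H40.ar_stmt H11.an)) H90.fct H65.inr
    (H33.ddd (H21.inn H40.ar_stmt) (H10.out H40.ar_stmt H11.an) H48.vpo H33.pol H64.bm)
    H48.asy (H24.dat H51.gen H87.coo H27.lim H60.fac) H19.trs
    (H5.spo H51.gen H87.coo H51.reg H65.sek H59.sel)

end PV3.H4
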